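import Pool.Agent.H83.G.Targets2

/-!
Module DRF of g_modules: drift of the supports.
-/

set_option autoImplicit false

namespace Pool.Agent.H77.G

open MeasureTheory Set Pool.Agent.H83.G
open scoped ENNReal NNReal RealInnerProductSpace

theorem rc (a a1 x W D s e1 : ℝ) (ha : 1 / 2 ≤ a) (ha1 : 1 / 2 ≤ a1) (hx : |x - W| ≤ D)
    (hx0 : 0 ≤ x) (hW0 : 0 ≤ W) (hW : W ≤ a1 * s) (he : |a - a1| ≤ e1) :
    |x ^ 2 / a - W ^ 2 / a1| ≤ 2 * (D * (2 * (a1 * s) + D)) + 2 * (a1 * s ^ 2) * e1 := by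
  have hD : 0 ≤ D := (abs_nonneg _).trans hx
  have he0 : 0 ≤ e1 := (abs_nonneg _).trans he
  have e2 : x ^ 2 / a - W ^ 2 / a1 = (x ^ 2 - W ^ 2) / a + W ^ 2 / a1 * ((a1 - a) / a) := by
    have : a ≠ 0 := by linarith
    have : a1 ≠ 0 := by linarith
    field_simp
    ring
  have h1 : |x ^ 2 - W ^ 2| ≤ D * (2 * (a1 * s) + D) := by
    have h2 : x ^ 2 - W ^ 2 = (x - W) * (x + W) := by ring
    rw [h2, abs_mul, abs_of_nonneg (add_nonneg hx0 hW0)]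
    have h3 := (abs_le.1 hx).2
    refine mul_le_mul hx (by linarith) (add_nonneg hx0 hW0) hD
  have h2 : W ^ 2 / a1 ≤ a1 * s ^ 2 := by
    rw [div_le_iff₀ (by linarith)]
    have : W ^ 2 ≤ (a1 * s) ^ 2 := pow_le_pow_left₀ hW0 hW 2
    nlinarith
  have h3 : |(x ^ 2 - W ^ 2) / a| ≤ 2 * (D * (2 * (a1 * s) + D)) := by
    rw [abs_div, abs_of_pos (by linarith : 0 < a), div_le_iff₀ (by linarith)]
    have : 0 ≤ D * (2 * (a1 * s) + D) := (abs_nonneg _).trans h1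
    nlinarith
  have h4 : |(a1 - a) / a| ≤ 2 * e1 := by
    rw [abs_div, abs_of_pos (by linarith : 0 < a), div_le_iff₀ (by linarith), abs_sub_comm]
    nlinarith
  have h5 : 0 ≤ W ^ 2 / a1 := by positivity
  have h6 : |W ^ 2 / a1 * ((a1 - a) / a)| ≤ a1 * s ^ 2 * (2 * e1) := by
    rw [abs_mul, abs_of_nonneg h5]
    exact mul_le_mul h2 h4 (abs_nonneg _) (h5.trans h2)
  rw [e2]
  have := abs_add_le ((x ^ 2 - W ^ 2) / a) (W ^ 2 / a1 * ((a1 - a) / a))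
  linarith

theorem quad {m : ℕ} (a b : ℝ) (ξ η : E m) (ha : a ≠ 0) :
    b - ‖ξ‖ ^ 2 / a = (b - 2 * ⟪ξ, η⟫ + a * ‖η‖ ^ 2) - ‖ξ - a • η‖ ^ 2 / a := by
  have h1 : ‖ξ - a • η‖ ^ 2 = ‖ξ‖ ^ 2 - 2 * (a * ⟪ξ, η⟫) + a ^ 2 * ‖η‖ ^ 2 := by
    rw [norm_sub_sq_real, inner_smul_right, norm_smul, mul_pow, Real.norm_eq_abs, sq_abs]
  rw [h1]
  field_simp
  ring

/-- the numerical bounds -/
theorem num1 (s u ρ κ a1 D e1 τ x : ℝ) (hs : 0 < s) (hs1 : s ≤ 1) (hu : 0 < u) (hu1 : u ≤ 1 / 2)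
    (hρ : 0 < ρ) (hρs : ρ ≤ s) (hκ : 0 ≤ κ) (hκ1 : κ ≤ 3 / 8) (ha1 : 1 / 2 ≤ a1)
    (ha2 : a1 ≤ 35 / 8) (hD0 : 0 ≤ D) (hD : D ≤ u * s / 1000 + 17 / 5 * (ρ * τ))
    (he0 : 0 ≤ e1) (he : e1 ≤ u / 1000 + ρ * τ)
    (hcase : (τ = 1 / 1000 ∧ s ^ 2 ≤ ρ / 2) ∨ (τ = 0 ∧ ρ = s ^ 2))
    (hx : x ≤ (1 + κ) * s ^ 2 + u * s ^ 2 / 1000 + 12 * (ρ * τ) +
      (2 * (D * (2 * (a1 * s) + D)) + 2 * (a1 * s ^ 2) * e1)) :
    x ≤ (1 + (κ + 2 * u)) * ρ := by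
  have hs2 : 0 < s ^ 2 := by positivity
  rcases hcase with ⟨rfl, h1⟩ | ⟨rfl, h1⟩
  · have hD1 : D ≤ s * (1 / 200) := by nlinarith
    have h2 : 2 * (a1 * s) + D ≤ 9 * s := by nlinarith
    have h3 : D * (2 * (a1 * s) + D) ≤ (u * s / 1000 + 17 / 5 * (ρ * (1 / 1000))) * (9 * s) :=
      mul_le_mul hD h2 (by positivity) (by positivity)
    have h4 : (u * s / 1000 + 17 / 5 * (ρ * (1 / 1000))) * (9 * s) ≤
        9 / 2000 * s ^ 2 + 31 / 1000 * ρ := by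
      have g1 : u * s ^ 2 ≤ 1 / 2 * s ^ 2 := mul_le_mul_of_nonneg_right hu1 hs2.le
      have g2 : ρ * s ≤ ρ := by nlinarith
      nlinarith
    have h5 : e1 ≤ 1 / 500 := by nlinarith
    have h6 : 2 * (a1 * s ^ 2) * e1 ≤ 2 * (35 / 8 * s ^ 2) * (1 / 500) := by
      refine mul_le_mul ?_ h5 he0 (by positivity)
      nlinarith
    have h7 : u * s ^ 2 ≤ 1 / 2 * s ^ 2 := mul_le_mul_of_nonneg_right hu1 hs2.le
    have h8 : κ * s ^ 2 ≤ 3 / 8 * s ^ 2 := mul_le_mul_of_nonneg_right hκ1 hs2.le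
    have h9 : 0 ≤ (κ + 2 * u) * ρ := by positivity
    nlinarith
  · have hD1 : D ≤ u * s / 1000 := by linarith
    have h2 : 2 * (a1 * s) + D ≤ 9 * s := by nlinarith
    have h3 : D * (2 * (a1 * s) + D) ≤ (u * s / 1000) * (9 * s) :=
      mul_le_mul hD1 h2 (by positivity) (by positivity)
    have h5 : e1 ≤ u / 1000 := by linarith
    have h6 : 2 * (a1 * s ^ 2) * e1 ≤ 2 * (35 / 8 * s ^ 2) * (u / 1000) := by
      refine mul_le_mul ?_ h5 he0 (by positivity)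
      nlinarith
    rw [h1]
    have h9 : 0 ≤ u * s ^ 2 := by positivity
    nlinarith

theorem inner_le {m : ℕ} (ξ η : E m) (τ : ℝ) (h1 : ‖ξ‖ ≤ τ) (h2 : ‖η‖ ≤ 12 / 5) :
    |⟪ξ, η⟫| ≤ 12 / 5 * τ := by
  refine (abs_real_inner_le_norm ξ η).trans ?_
  have := mul_le_mul h1 h2 (norm_nonneg _) ((norm_nonneg _).trans h1)
  linarith

/-- the statement with parameters -/
theorem core {m : ℕ} (η ξ1 ξ2 ξ3 : E m) (s u ρ κ τ a1 a2 a3 b1 b2 b3 : ℝ) (hs : 0 < s)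
    (hs1 : s ≤ 1) (hu : 0 < u) (hu1 : u ≤ 1 / 2) (hsu : s ≤ u)
    (hρ : 0 < ρ) (hρs : ρ ≤ s) (hκ : 0 ≤ κ) (hκ1 : κ ≤ 3 / 8)
    (hcase : (τ = 1 / 1000 ∧ s ^ 2 ≤ ρ / 2) ∨ (τ = 0 ∧ ρ = s ^ 2))
    (h1 : 1 - κ ≤ a1) (h2 : a1 ≤ 4 + κ) (h3 : ‖ξ1‖ ≤ (1 + κ) * a1)
    (h4 : |b1 - ‖ξ1‖ ^ 2 / a1| ≤ (1 + κ) * s ^ 2) (h5 : ‖a1⁻¹ • ξ1 - η‖ ≤ s)
    (ka2 : |a2| ≤ 1 / 1000) (kb2 : |b2| ≤ 1 / 1000) (k2 : ‖ξ2‖ ≤ 1 / 1000)
    (ka3 : |a3| ≤ τ) (kb3 : |b3| ≤ τ) (k3 : ‖ξ3‖ ≤ τ) (a b : ℝ) (ξ : E m)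
    (ea : a = a1 + u * a2 + ρ * a3) (eξ : ξ = ξ1 + u • (s • ξ2 + a2 • η) + ρ • ξ3)
    (eb : b = b1 + u * (s ^ 2 * b2 + 2 * s * ⟪ξ2, η⟫ + a2 * ‖η‖ ^ 2) + ρ * b3) :
    (1 - (κ + 2 * u) ≤ a ∧ a ≤ 4 + (κ + 2 * u) ∧ ‖ξ‖ ≤ (1 + (κ + 2 * u)) * a ∧
      |b - ‖ξ‖ ^ 2 / a| ≤ (1 + (κ + 2 * u)) * ρ) ∧ ‖a⁻¹ • ξ - η‖ ≤ 2 * s ∧
      1 / 4 ≤ a ∧ a ≤ 8 := by
  have hτ0 : 0 ≤ τ := (abs_nonneg _).trans ka3
  have hτ1 : τ ≤ 1 / 1000 := by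
    rcases hcase with h | h
    · exact h.1.le
    · rw [h.1]; norm_num
  have ha1 : 5 / 8 ≤ a1 := by linarith
  have ha1' : a1 ≤ 35 / 8 := by linarith
  have ha1p : 0 < a1 := by linarith
  have hρτ : ρ * τ ≤ u / 1000 := by
    have := mul_le_mul (hρs.trans hsu) hτ1 hτ0 hu.le
    linarith
  have hρτ0 : 0 ≤ ρ * τ := by positivity
  -- the centre
  have hη : ‖η‖ ≤ 12 / 5 := by
    have g1 : ‖a1⁻¹ • ξ1‖ ≤ 1 + κ := by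
      rw [norm_smul, Real.norm_eq_abs, abs_of_pos (inv_pos.2 ha1p), inv_mul_le_iff₀ ha1p]
      linarith
    have g2 : ‖η‖ ≤ ‖a1⁻¹ • ξ1‖ + ‖a1⁻¹ • ξ1 - η‖ := by
      have := norm_sub_le (a1⁻¹ • ξ1) (a1⁻¹ • ξ1 - η)
      rwa [sub_sub_cancel] at this
    linarith
  -- the first component
  have hda : |a - a1| ≤ u / 1000 + ρ * τ := by
    have g1 : a - a1 = u * a2 + ρ * a3 := by rw [ea]; ring
    rw [g1]
    refine (abs_add_le _ _).trans ?_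
    rw [abs_mul, abs_mul, abs_of_pos hu, abs_of_pos hρ]
    have g2 := mul_le_mul_of_nonneg_left ka2 hu.le
    have g3 := mul_le_mul_of_nonneg_left ka3 hρ.le
    linarith
  have hda2 := abs_le.1 hda
  have hau : a1 - u / 500 ≤ a := by linarith [hda2.1]
  have hau' : a ≤ a1 + u / 500 := by linarith [hda2.2]
  have ha : 1 / 2 ≤ a := by linarith
  have hap : 0 < a := by linarith
  -- the deviation
  have hw1 : ‖ξ1 - a1 • η‖ ≤ a1 * s := by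
    have g1 : ξ1 - a1 • η = a1 • (a1⁻¹ • ξ1 - η) := by
      rw [smul_sub, smul_smul, mul_inv_cancel₀ ha1p.ne', one_smul]
    rw [g1, norm_smul, Real.norm_eq_abs, abs_of_pos ha1p]
    exact mul_le_mul_of_nonneg_left h5 ha1p.le
  have hw : ξ - a • η = (ξ1 - a1 • η) + ((u * s) • ξ2 + ρ • (ξ3 - a3 • η)) := by
    rw [eξ, ea]
    module
  have hd : ‖(u * s) • ξ2 + ρ • (ξ3 - a3 • η)‖ ≤ u * s / 1000 + 17 / 5 * (ρ * τ) := by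
    refine (norm_add_le _ _).trans ?_
    rw [norm_smul, norm_smul, Real.norm_eq_abs, Real.norm_eq_abs, abs_of_pos hρ,
      abs_of_pos (mul_pos hu hs)]
    have g1 : ‖ξ3 - a3 • η‖ ≤ 17 / 5 * τ := by
      refine (norm_sub_le _ _).trans ?_
      rw [norm_smul, Real.norm_eq_abs]
      have := mul_le_mul ka3 hη (norm_nonneg _) hτ0
      linarith
    have g2 := mul_le_mul_of_nonneg_left g1 hρ.le
    have g3 := mul_le_mul_of_nonneg_left k2 (mul_pos hu hs).le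
    linarith
  obtain ⟨D, hDdef⟩ : ∃ D : ℝ, D = ‖(u * s) • ξ2 + ρ • (ξ3 - a3 • η)‖ := ⟨_, rfl⟩
  rw [← hDdef] at hd
  have hD0 : 0 ≤ D := by rw [hDdef]; exact norm_nonneg _
  have hdiff : |‖ξ - a • η‖ - ‖ξ1 - a1 • η‖| ≤ D := by
    refine (abs_norm_sub_norm_le _ _).trans ?_
    rw [hw, add_sub_cancel_left, hDdef]
  have hwn : ‖ξ - a • η‖ ≤ a1 * s + D := by
    have := (abs_le.1 hdiff).2
    linarith
  refine ⟨⟨by linarith, by linarith, ?_, ?_⟩, ?_, by linarith, by linarith⟩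
  · -- size of `ξ`
    have g1 : ‖ξ‖ ≤ (1 + κ) * a1 + 44 / 10 * (u / 1000) := by
      rw [eξ]
      refine (norm_add_le _ _).trans ?_
      have g2 : ‖ξ1 + u • (s • ξ2 + a2 • η)‖ ≤ (1 + κ) * a1 + u * (34 / 10 / 1000) := by
        refine (norm_add_le _ _).trans (add_le_add h3 ?_)
        rw [norm_smul, Real.norm_eq_abs, abs_of_pos hu]
        refine mul_le_mul_of_nonneg_left ?_ hu.le
        refine (norm_add_le _ _).trans ?_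
        rw [norm_smul, norm_smul, Real.norm_eq_abs, Real.norm_eq_abs, abs_of_pos hs]
        have g3 : s * ‖ξ2‖ ≤ 1 * (1 / 1000) := mul_le_mul hs1 k2 (norm_nonneg _) (by norm_num)
        have g4 : |a2| * ‖η‖ ≤ 1 / 1000 * (12 / 5) :=
          mul_le_mul ka2 hη (norm_nonneg _) (by norm_num)
        linarith
      have g5 : ‖ρ • ξ3‖ ≤ u / 1000 := by
        rw [norm_smul, Real.norm_eq_abs, abs_of_pos hρ]
        exact (mul_le_mul_of_nonneg_left k3 hρ.le).trans hρτ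
      linarith
    have g6 : (1 + κ) * a1 ≤ (1 + κ) * (a + u / 500) :=
      mul_le_mul_of_nonneg_left (by linarith) (by linarith)
    have g7 : u * (1 / 2) ≤ u * a := mul_le_mul_of_nonneg_left ha hu.le
    have g8 : κ * (u / 500) ≤ 3 / 8 * (u / 500) :=
      mul_le_mul_of_nonneg_right hκ1 (by positivity)
    nlinarith
  · -- distance to the cone
    have q1 := quad a1 b1 ξ1 η ha1p.ne'
    have q := quad a b ξ η hap.ne'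
    have g1 : b - 2 * ⟪ξ, η⟫ + a * ‖η‖ ^ 2 = (b1 - 2 * ⟪ξ1, η⟫ + a1 * ‖η‖ ^ 2) +
        u * s ^ 2 * b2 + ρ * (b3 - 2 * ⟪ξ3, η⟫ + a3 * ‖η‖ ^ 2) := by
      rw [eb, ea, eξ]
      simp only [inner_add_left, inner_smul_left, real_inner_self_eq_norm_sq, smul_add, smul_smul,
        RCLike.conj_to_real]
      ring
    have g2 : |u * s ^ 2 * b2| ≤ u * s ^ 2 / 1000 := by
      rw [abs_mul, abs_of_pos (by positivity : 0 < u * s ^ 2)]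
      have := mul_le_mul_of_nonneg_left kb2 (by positivity : 0 ≤ u * s ^ 2)
      linarith
    have g3 : |ρ * (b3 - 2 * ⟪ξ3, η⟫ + a3 * ‖η‖ ^ 2)| ≤ 12 * (ρ * τ) := by
      rw [abs_mul, abs_of_pos hρ]
      have g4 : |b3 - 2 * ⟪ξ3, η⟫ + a3 * ‖η‖ ^ 2| ≤ 12 * τ := by
        have g5 := inner_le ξ3 η τ k3 hη
        have g6 : |a3 * ‖η‖ ^ 2| ≤ τ * (12 / 5) ^ 2 := by
          rw [abs_mul, abs_of_nonneg (by positivity : (0 : ℝ) ≤ ‖η‖ ^ 2)]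
          exact mul_le_mul ka3 (pow_le_pow_left₀ (norm_nonneg _) hη 2) (by positivity) hτ0
        have g7 := abs_le.1 g5
        have g8 := abs_le.1 g6
        have g9 := abs_le.1 kb3
        rw [abs_le]
        constructor <;> linarith [g7.1, g7.2, g8.1, g8.2, g9.1, g9.2]
      have := mul_le_mul_of_nonneg_left g4 hρ.le
      linarith
    have g10 := rc a a1 ‖ξ - a • η‖ ‖ξ1 - a1 • η‖ D s (u / 1000 + ρ * τ) ha (by linarith) hdiff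
      (norm_nonneg _) (norm_nonneg _) hw1 hda
    refine num1 s u ρ κ a1 D (u / 1000 + ρ * τ) τ _ hs hs1 hu hu1 hρ hρs hκ hκ1 (by linarith)
      ha1' hD0 hd (by positivity) le_rfl hcase ?_
    have g11 : b - ‖ξ‖ ^ 2 / a = (b1 - ‖ξ1‖ ^ 2 / a1) + u * s ^ 2 * b2 +
        ρ * (b3 - 2 * ⟪ξ3, η⟫ + a3 * ‖η‖ ^ 2) -
        (‖ξ - a • η‖ ^ 2 / a - ‖ξ1 - a1 • η‖ ^ 2 / a1) := by
      rw [q, q1, g1]
      ring
    rw [g11]
    have t1 := abs_sub (b1 - ‖ξ1‖ ^ 2 / a1 + u * s ^ 2 * b2 +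
        ρ * (b3 - 2 * ⟪ξ3, η⟫ + a3 * ‖η‖ ^ 2))
      (‖ξ - a • η‖ ^ 2 / a - ‖ξ1 - a1 • η‖ ^ 2 / a1)
    have t2 := abs_add_three (b1 - ‖ξ1‖ ^ 2 / a1) (u * s ^ 2 * b2)
      (ρ * (b3 - 2 * ⟪ξ3, η⟫ + a3 * ‖η‖ ^ 2))
    linarith
  · -- direction
    have g1 : a⁻¹ • ξ - η = a⁻¹ • (ξ - a • η) := by
      rw [smul_sub, smul_smul, inv_mul_cancel₀ hap.ne', one_smul]
    rw [g1, norm_smul, Real.norm_eq_abs, abs_of_pos (inv_pos.2 hap), inv_mul_le_iff₀ hap]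
    refine hwn.trans ?_
    have g2 : D ≤ s * (1 / 200) := by
      have g3 : ρ * τ ≤ s * (1 / 1000) := mul_le_mul hρs hτ1 hτ0 hs.le
      have g4 : u * s ≤ 1 / 2 * s := mul_le_mul_of_nonneg_right hu1 hs.le
      linarith
    have g5 : (a1 - u / 500) * s ≤ a * s := mul_le_mul_of_nonneg_right hau hs.le
    have g6 : u * s ≤ 1 / 2 * s := mul_le_mul_of_nonneg_right hu1 hs.le
    have g7 : 5 / 8 * s ≤ a1 * s := mul_le_mul_of_nonneg_right ha1 hs.le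
    nlinarith

/-- DRF -/
theorem pf_DRF (_hLOA : T_LOA) : T_DRF := by
  intro m
  refine ⟨2, by norm_num, ?_⟩
  intro κ R r δ k ζ₁ ζ₂ ζ₃ hκ hκ1 hδ hδ1 _ hC hr hcase hζ₁ h5 h6 h7 ζ hζ
  obtain ⟨h1, h2, h3, h4⟩ := hζ₁
  have hR : 0 < R := by
    rcases lt_trichotomy R 0 with h | h | h
    · have g1 : (1 + κ) * R⁻¹ < 0 := mul_neg_of_pos_of_neg (by linarith) (inv_lt_zero.2 h)
      exact absurd (abs_nonneg _) (not_le.2 (h4.trans_lt g1))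
    · rw [h, Real.zero_rpow hδ.ne'] at hC
      norm_num at hC
    · exact h
  have hR1 : 1 ≤ R := by
    by_contra g
    have := Real.rpow_le_one hR.le (not_le.1 g).le hδ.le
    linarith
  have hsq : 0 < Real.sqrt R := Real.sqrt_pos.2 hR
  have hrp : 0 < r := lt_of_lt_of_le hsq hr
  have hs : 0 < sR R := inv_pos.2 hsq
  have hs1 : sR R ≤ 1 := inv_le_one_of_one_le₀ (Real.one_le_sqrt.2 hR1)
  have hs2 : sR R ^ 2 = R⁻¹ := by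
    unfold sR
    rw [inv_pow, Real.sq_sqrt hR.le]
  have hue : R ^ (-δ) = (R ^ δ)⁻¹ := Real.rpow_neg hR.le δ
  have hu : 0 < R ^ (-δ) := Real.rpow_pos_of_pos hR _
  have hu1 : R ^ (-δ) ≤ 1 / 2 := by
    rw [hue, one_div]
    exact inv_anti₀ (by norm_num) hC
  have hsu : sR R ≤ R ^ (-δ) := by
    rw [hue]
    unfold sR
    refine inv_anti₀ (Real.rpow_pos_of_pos hR _) ?_
    rw [Real.sqrt_eq_rpow]
    exact Real.rpow_le_rpow_of_exponent_le hR1 (by linarith)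
  have hρ : 0 < r⁻¹ := inv_pos.2 hrp
  have hρs : r⁻¹ ≤ sR R := inv_anti₀ hsq hr
  have hn : ∀ ζ : Z m, |ζ.1| ≤ ‖ζ‖ ∧ |ζ.2.2| ≤ ‖ζ‖ ∧ ‖ζ.2.1‖ ≤ ‖ζ‖ := fun ζ =>
    ⟨norm_fst_le ζ, (norm_snd_le ζ.2).trans (norm_snd_le ζ),
      (norm_fst_le ζ.2).trans (norm_snd_le ζ)⟩
  obtain ⟨k1, k2, k3⟩ := hn ζ₂
  have main : ∀ τ : ℝ, (τ = 1 / 1000 ∧ sR R ^ 2 ≤ r⁻¹ / 2) ∨ (τ = 0 ∧ r⁻¹ = sR R ^ 2) →
      ‖ζ₃‖ ≤ τ → ζ ∈ Rg m (κ + 2 * R ^ (-δ)) r⁻¹ ∧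
      ‖ζ.1⁻¹ • ζ.2.1 - ctr (sR R) k‖ ≤ 2 * sR R ∧ 1 / 4 ≤ ζ.1 ∧ ζ.1 ≤ 8 := by
    intro τ hτ h8
    obtain ⟨l1, l2, l3⟩ := hn ζ₃
    have h9 := core (ctr (sR R) k) ζ₁.2.1 ζ₂.2.1 ζ₃.2.1 (sR R) (R ^ (-δ)) r⁻¹ κ τ ζ₁.1 ζ₂.1 ζ₃.1
      ζ₁.2.2 ζ₂.2.2 ζ₃.2.2 hs hs1 hu hu1 hsu hρ hρs hκ hκ1 hτ h1 h2 h3 (by rw [hs2]; exact h4) h5
      (k1.trans h6) (k2.trans h6) (k3.trans h6) (l1.trans h8) (l2.trans h8) (l3.trans h8)
      ζ.1 ζ.2.2 ζ.2.1 (by rw [hζ]; rfl) (by rw [hζ]; rfl) (by rw [hζ]; rfl)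
    exact h9
  rcases hcase with g | ⟨g, g'⟩
  · refine main (1 / 1000) (Or.inl ⟨rfl, ?_⟩) h7
    rw [hs2]
    have g1 : 2 * r ≤ R := by linarith
    have g2 : R⁻¹ ≤ (2 * r)⁻¹ := inv_anti₀ (by positivity) g1
    rw [mul_inv] at g2
    linarith
  · refine main 0 (Or.inr ⟨rfl, ?_⟩) (by rw [g, norm_zero])
    rw [hs2, g']

end Pool.Agent.H77.G
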