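import Pool.Agent.H83.G.Targets1

/-!
Module LWX of g_modules: band limited functions at least `1` on a ball exist.
-/

set_option autoImplicit false

namespace Pool.Agent.H77.G

open MeasureTheory Set Pool.Agent.H83.G
open scoped ENNReal NNReal RealInnerProductSpace Convolution

section
variable {m : ℕ}

theorem e_add (x y : ℝ) : e (x + y) = e x * e y := by
  unfold e
  rw [← Complex.exp_add]
  congr 1
  push_cast
  ring

theorem e_norm (x : ℝ) : ‖e x‖ = 1 := by
  unfold e
  exact Complex.norm_exp_ofReal_mul_I _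

theorem e_re (x : ℝ) : (e x).re = Real.cos (2 * Real.pi * x) := by
  unfold e
  exact Complex.exp_ofReal_mul_I_re _

theorem e_conj (x : ℝ) : (starRingEnd ℂ) (e x) = e (-x) := by
  unfold e
  rw [← Complex.exp_conj]
  congr 1
  rw [map_mul, Complex.conj_ofReal, Complex.conj_I]
  push_cast
  ring

theorem e_cont : Continuous e := by
  unfold e
  fun_prop

theorem ph_add (z ζ ζ' : Z m) : ph z (ζ + ζ') = ph z ζ + ph z ζ' := by
  unfold ph
  simp only [Prod.fst_add, Prod.snd_add, inner_add_right]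
  ring

theorem ph_neg (z ζ : Z m) : ph z (-ζ) = -ph z ζ := by
  unfold ph
  simp only [Prod.fst_neg, Prod.snd_neg, inner_neg_right]
  ring

theorem ph_cont (z : Z m) : Continuous (fun ζ : Z m => ph z ζ) := by
  unfold ph
  fun_prop

theorem ph_abs (z ζ : Z m) : |ph z ζ| ≤ 3 * ‖z‖ * ‖ζ‖ := by
  have h1 : |z.1| ≤ ‖z‖ := norm_fst_le z
  have h2 : ‖z.2.1‖ ≤ ‖z‖ := (norm_fst_le z.2).trans (norm_snd_le z)
  have h3 : |z.2.2| ≤ ‖z‖ := (norm_snd_le z.2).trans (norm_snd_le z)
  have k1 : |ζ.1| ≤ ‖ζ‖ := norm_fst_le ζ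
  have k2 : ‖ζ.2.1‖ ≤ ‖ζ‖ := (norm_fst_le ζ.2).trans (norm_snd_le ζ)
  have k3 : |ζ.2.2| ≤ ‖ζ‖ := (norm_snd_le ζ.2).trans (norm_snd_le ζ)
  have i1 : |z.1 * ζ.1| ≤ ‖z‖ * ‖ζ‖ := by
    rw [abs_mul]
    exact mul_le_mul h1 k1 (abs_nonneg _) (norm_nonneg _)
  have i2 : |⟪z.2.1, ζ.2.1⟫| ≤ ‖z‖ * ‖ζ‖ :=
    (abs_real_inner_le_norm _ _).trans (mul_le_mul h2 k2 (norm_nonneg _) (norm_nonneg _))
  have i3 : |z.2.2 * ζ.2.2| ≤ ‖z‖ * ‖ζ‖ := by
    rw [abs_mul]
    exact mul_le_mul h3 k3 (abs_nonneg _) (norm_nonneg _)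
  unfold ph
  have := abs_add_three (z.1 * ζ.1) ⟪z.2.1, ζ.2.1⟫ (z.2.2 * ζ.2.2)
  linarith

/-- the volume is a Haar measure -/
instance haarZ : (volume : Measure (Z m)).IsAddHaarMeasure := by
  have : (volume : Measure (E m × ℝ)).IsAddHaarMeasure :=
    Measure.prod.instIsAddHaarMeasure (volume : Measure (E m)) (volume : Measure ℝ)
  exact Measure.prod.instIsAddHaarMeasure (volume : Measure ℝ) (volume : Measure (E m × ℝ))

instance negZ : (volume : Measure (Z m)).IsNegInvariant :=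
  Measure.IsAddHaarMeasure.isNegInvariant_of_regular _

/-- product of two inverse Fourier transforms -/
theorem TF_conv {f g : Z m → ℂ} (hf : Continuous f) (hf' : HasCompactSupport f)
    (hg : Continuous g) (hg' : HasCompactSupport g) (z : Z m) :
    TF (f ⋆[ContinuousLinearMap.mul ℝ ℂ, volume] g) z = TF f z * TF g z := by
  have hi : ∀ {h : Z m → ℂ}, Continuous h → HasCompactSupport h →
      Integrable (fun ζ => e (ph z ζ) * h ζ) := by
    intro h h1 h2
    refine Continuous.integrable_of_hasCompactSupport ?_ h2.mul_left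
    exact (e_cont.comp (ph_cont z)).mul h1
  have h1 := integral_convolution (ContinuousLinearMap.mul ℝ ℂ) (μ := (volume : Measure (Z m)))
    (ν := (volume : Measure (Z m))) (hi hf hf') (hi hg hg')
  unfold TF
  rw [ContinuousLinearMap.mul_apply'] at h1
  rw [← h1]
  refine integral_congr_ae (Filter.Eventually.of_forall fun ζ => ?_)
  show e (ph z ζ) * (f ⋆[ContinuousLinearMap.mul ℝ ℂ, volume] g) ζ = _
  unfold MeasureTheory.convolution
  rw [← integral_const_mul]
  refine integral_congr_ae (Filter.Eventually.of_forall fun t => ?_)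
  simp only [ContinuousLinearMap.mul_apply']
  have h2 : e (ph z ζ) = e (ph z t) * e (ph z (ζ - t)) := by
    rw [← e_add, ← ph_add, add_sub_cancel]
  rw [h2]
  ring

end

/-- LWX -/
theorem pf_LWX (_hSCH : T_SCH) : T_LWX := by
  intro m
  have hm : (0 : ℝ) ≤ (m : ℝ) := Nat.cast_nonneg m
  obtain ⟨c, hc⟩ : ∃ c : ℝ, c = 1 / (2000 * (2 * (m : ℝ) + 4)) := ⟨_, rfl⟩
  have hc0 : 0 < c := by
    rw [hc]
    positivity
  have hc1 : c * (2 * (m : ℝ) + 4) = 1 / 2000 := by
    rw [hc]
    field_simp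
  have hc2 : 2 * c ≤ 1 / 1000 := by nlinarith
  let f : ContDiffBump (0 : Z m) := ⟨c / 2, c, by linarith, by linarith⟩
  have hf1 : ContDiff ℝ (⊤ : ℕ∞) (f.normed (volume : Measure (Z m))) := f.contDiff_normed
  have hf2 : HasCompactSupport (f.normed (volume : Measure (Z m))) := f.hasCompactSupport_normed
  have hf3 : ∀ ζ, 0 ≤ f.normed (volume : Measure (Z m)) ζ := fun ζ => f.nonneg_normed ζ
  have hf4 : ∫ ζ, f.normed (volume : Measure (Z m)) ζ = 1 := f.integral_normed
  have hf5 : ∀ ζ, f.normed (volume : Measure (Z m)) (-ζ) = f.normed volume ζ :=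
    fun ζ => f.normed_neg ζ
  have hf6 : ∀ ζ, f.normed (volume : Measure (Z m)) ζ ≠ 0 → ‖ζ‖ < c := by
    intro ζ h
    have h1 : ζ ∈ Function.support (f.normed (volume : Measure (Z m))) := h
    rw [f.support_normed_eq] at h1
    simpa using h1
  obtain ⟨X, hX⟩ : ∃ X : Z m → ℂ, X = fun ζ => ((f.normed (volume : Measure (Z m)) ζ : ℝ) : ℂ) :=
    ⟨_, rfl⟩
  have hX1 : ContDiff ℝ (⊤ : ℕ∞) X := by
    rw [hX]
    exact Complex.ofRealCLM.contDiff.comp hf1
  have hX2 : HasCompactSupport X := by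
    rw [hX]
    exact hf2.comp_left (g := fun r : ℝ => (r : ℂ)) Complex.ofReal_zero
  have hX3 : ∀ ζ, X ζ ≠ 0 → ‖ζ‖ < c := by
    intro ζ h
    refine hf6 ζ fun h1 => h ?_
    rw [hX]
    show ((f.normed (volume : Measure (Z m)) ζ : ℝ) : ℂ) = 0
    rw [h1, Complex.ofReal_zero]
  have hint : ∀ z : Z m, Integrable (fun ζ => e (ph z ζ) * X ζ) := fun z =>
    Continuous.integrable_of_hasCompactSupport
      ((e_cont.comp (ph_cont z)).mul hX1.continuous) hX2.mul_left
  have hreal : ∀ z : Z m, TF X z = ((TF X z).re : ℂ) := by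
    intro z
    refine (Complex.conj_eq_iff_re.1 ?_).symm
    unfold TF
    rw [← integral_conj]
    have h1 : ∫ ζ : Z m, (starRingEnd ℂ) (e (ph z ζ) * X ζ) =
        ∫ ζ : Z m, (fun ζ => e (ph z ζ) * X ζ) (-ζ) := by
      refine integral_congr_ae (Filter.Eventually.of_forall fun ζ => ?_)
      show (starRingEnd ℂ) (e (ph z ζ) * X ζ) = e (ph z (-ζ)) * X (-ζ)
      rw [map_mul, e_conj, ph_neg, hX]
      show _ * (starRingEnd ℂ) ((f.normed (volume : Measure (Z m)) ζ : ℝ) : ℂ) =
        _ * ((f.normed (volume : Measure (Z m)) (-ζ) : ℝ) : ℂ)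
      rw [hf5, Complex.conj_ofReal]
    rw [h1, integral_neg_eq_self (fun ζ => e (ph z ζ) * X ζ) (volume : Measure (Z m))]
  have hlow : ∀ z : Z m, ‖z‖ ≤ 2 * (m : ℝ) + 4 → 9 / 10 ≤ (TF X z).re := by
    intro z hz
    have h1 : (TF X z).re = ∫ ζ : Z m, Real.cos (2 * Real.pi * ph z ζ) *
        f.normed (volume : Measure (Z m)) ζ := by
      unfold TF
      have h2 := integral_re (hint z)
      rw [show (∫ ζ : Z m, e (ph z ζ) * X ζ).re = RCLike.re (∫ ζ : Z m, e (ph z ζ) * X ζ) from rfl,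
        ← h2]
      refine integral_congr_ae (Filter.Eventually.of_forall fun ζ => ?_)
      show (e (ph z ζ) * X ζ).re = _
      rw [hX]
      show (e (ph z ζ) * ((f.normed (volume : Measure (Z m)) ζ : ℝ) : ℂ)).re = _
      rw [Complex.re_mul_ofReal, e_re]
    rw [h1]
    have h3 : (9 / 10 : ℝ) = ∫ ζ : Z m, 9 / 10 * f.normed (volume : Measure (Z m)) ζ := by
      rw [integral_const_mul, hf4, mul_one]
    rw [h3]
    refine integral_mono (Continuous.integrable_of_hasCompactSupport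
      (continuous_const.mul hf1.continuous) hf2.mul_left)
      (Continuous.integrable_of_hasCompactSupport
      ((Real.continuous_cos.comp (continuous_const.mul (ph_cont z))).mul hf1.continuous)
      hf2.mul_left) fun ζ => ?_
    show 9 / 10 * f.normed (volume : Measure (Z m)) ζ ≤ Real.cos (2 * Real.pi * ph z ζ) *
        f.normed (volume : Measure (Z m)) ζ
    by_cases h0 : f.normed (volume : Measure (Z m)) ζ = 0
    · rw [h0, mul_zero, mul_zero]
    · refine mul_le_mul_of_nonneg_right ?_ (hf3 ζ)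
      have h4 := hf6 ζ h0
      have h5 : |ph z ζ| ≤ 3 / 2000 := by
        refine (ph_abs z ζ).trans ?_
        have : ‖z‖ * ‖ζ‖ ≤ (2 * (m : ℝ) + 4) * c :=
          mul_le_mul hz h4.le (norm_nonneg _) (by positivity)
        nlinarith
      have h6 := Real.one_sub_sq_div_two_le_cos (x := 2 * Real.pi * ph z ζ)
      have h7 : |2 * Real.pi * ph z ζ| ≤ 1 / 10 := by
        rw [abs_mul, abs_of_pos (by positivity : (0 : ℝ) < 2 * Real.pi)]
        have := Real.pi_lt_four
        nlinarith [abs_nonneg (ph z ζ), Real.pi_pos]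
      have h8 : (2 * Real.pi * ph z ζ) ^ 2 ≤ 1 / 100 := by
        rw [← sq_abs]
        nlinarith [abs_nonneg (2 * Real.pi * ph z ζ)]
      linarith
  obtain ⟨g, hg⟩ : ∃ g : Z m → ℂ, g = X ⋆[ContinuousLinearMap.mul ℝ ℂ, volume] X := ⟨_, rfl⟩
  have hg1 : ContDiff ℝ (⊤ : ℕ∞) g := by
    rw [hg]
    exact hX2.contDiff_convolution_right _ (hX1.continuous.locallyIntegrable) hX1
  have hg2 : HasCompactSupport g := by
    rw [hg]
    exact hX2.convolution _ hX2
  have hg3 : ∀ z, TF g z = (((TF X z).re ^ 2 : ℝ) : ℂ) := by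
    intro z
    rw [hg, TF_conv hX1.continuous hX2 hX1.continuous hX2, hreal z]
    push_cast
    simp only [Complex.ofReal_re]
    ring
  refine ⟨fun ζ => 2 * g ζ, fun z => 2 * (TF X z).re ^ 2, ⟨?_, ?_⟩, ?_, ?_, ?_, ?_⟩
  · exact contDiff_const.mul hg1
  · exact hg2.mul_left
  · intro ζ h
    have h1 : g ζ ≠ 0 := fun h2 => h (by simp only [h2, mul_zero])
    have h2 : ∃ t, X t ≠ 0 ∧ X (ζ - t) ≠ 0 := by
      by_contra h3
      apply h1
      rw [hg]
      unfold MeasureTheory.convolution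
      have h4 : ∀ t, (ContinuousLinearMap.mul ℝ ℂ) (X t) (X (ζ - t)) = 0 := by
        intro t
        rw [ContinuousLinearMap.mul_apply']
        by_cases h5 : X t = 0
        · rw [h5, zero_mul]
        · by_cases h6 : X (ζ - t) = 0
          · rw [h6, mul_zero]
          · exact absurd ⟨t, h5, h6⟩ h3
      simp only [h4, integral_zero]
    obtain ⟨t, h3, h4⟩ := h2
    have h5 := hX3 _ h3
    have h6 := hX3 _ h4
    have h7 : ‖ζ‖ ≤ ‖ζ - t‖ + ‖t‖ := by
      have := norm_add_le (ζ - t) t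
      rwa [sub_add_cancel] at this
    linarith
  · intro z
    have h1 : TF (fun ζ => 2 * g ζ) z = 2 * TF g z := by
      unfold TF
      rw [← integral_const_mul]
      refine integral_congr_ae (Filter.Eventually.of_forall fun ζ => ?_)
      show e (ph z ζ) * (2 * g ζ) = 2 * (e (ph z ζ) * g ζ)
      ring
    rw [h1, hg3]
    push_cast
    ring
  · intro z
    positivity
  · intro z hz
    have := hlow z hz
    show 1 ≤ 2 * (TF X z).re ^ 2
    nlinarith

end Pool.Agent.H77.G
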